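import Mathlib

/-!
Definitions for the additive energy theorem on the 2-sphere (MP_d38fbf_co, frozen S11667).
-/

set_option autoImplicit false

open Polynomial

namespace Pool.Agent.Helper27.SE

/-- Euclidean three space. -/
abbrev E3 := EuclideanSpace ℝ (Fin 3)

/-- The value of a polynomial in the first two coordinates at a point of three space. -/
noncomputable def ev (f : ℝ[X][X]) (a : E3) : ℝ := f.evalEval (a 0) (a 1)

/-- Bidegree at most `k`. -/
def BD (k : ℕ) (f : ℝ[X][X]) : Prop := f.natDegree ≤ k ∧ ∀ i, (f.coeff i).natDegree ≤ k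

/-- `a` and `s - a` both lie on the unit sphere. -/
def On (s a : E3) : Prop := ‖a‖ = 1 ∧ ‖s - a‖ = 1

/-- No polynomial of the family vanishes at `a`. -/
def Good {J : ℕ} (P : Fin J → ℝ[X][X]) (a : E3) : Prop := ∀ i, ev (P i) a ≠ 0

open Classical in
/-- The sign vector of a point. -/
noncomputable def lab {J : ℕ} (P : Fin J → ℝ[X][X]) (a : E3) : Fin J → Bool :=
  fun i => decide (0 < ev (P i) a)

/-- The additive energy of a finite set. -/
def en {G : Type*} [AddCommGroup G] [DecidableEq G] (A : Finset G) : ℕ :=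
  ((A ×ˢ A ×ˢ A ×ˢ A).filter (fun p => p.1 + p.2.1 = p.2.2.1 + p.2.2.2)).card

end Pool.Agent.Helper27.SE
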