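import Pool.Agent.Helper27.SE.Final

/-!
The additive energy of a finite subset of a sphere of three space: explicit bound
`10 ^ 4 * N ^ 2 * exp (6 * sqrt (log N))`.
-/

set_option autoImplicit false

open Polynomial

namespace Pool.Agent.Helper27.SE

open Pool.Agent.Helper30.SE (arc1 arc2)
open Pool.Agent.Helper45.SE (count)
open Pool.Agent.Helper72.SE (bad)

open Classical in
/-- The recursive inequality with explicit constants. -/
theorem rec_explicit (m : ℕ) (A : Finset E3) (hA : ∀ a ∈ A, ‖a‖ = 1) :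
    ∃ cells : (Fin (2 * m) → Bool) → Finset E3, (∀ τ, cells τ ⊆ A) ∧
      (∀ τ, (cells τ).card * 4 ^ m ≤ A.card) ∧ (∑ τ, (cells τ).card ≤ A.card) ∧
      en A ≤ 1206 * 4 ^ m * A.card ^ 2 + 1152 * 4 ^ m * ∑ τ, en (cells τ) := by
  set κ : Fin (2 * m) → ℕ := fun i => 2 ^ ((i.val + 1) / 2) with hκ
  set M : ℕ := 8 * (∑ i, κ i) + 2 with hM
  obtain ⟨P, hP0, hPB, hPc⟩ := part (2 * m) A
  choose T hTc hT using fun i => bad (κ i) (P i) (hP0 i) (hPB i)
  set B : Finset E3 := insert 0 (Finset.univ.biUnion T) with hB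
  have hBc : B.card ≤ 2 * (∑ i, κ i) + 1 := by
    refine le_trans (Finset.card_insert_le _ _) (Nat.add_le_add_right ?_ 1)
    refine le_trans Finset.card_biUnion_le ?_
    rw [Finset.mul_sum]
    exact Finset.sum_le_sum fun i _ => hTc i
  have hs0 : ∀ s, s ∉ B → s ≠ 0 := by
    intro s hs h
    exact hs (by rw [hB, h]; exact Finset.mem_insert_self _ _)
  have hfin : ∀ s, s ∉ B → ∀ i, {a : E3 | On s a ∧ ev (P i) a = 0}.Finite := by
    intro s hs i
    by_contra hcon
    apply hs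
    rw [hB]
    refine Finset.mem_insert_of_mem (Finset.mem_biUnion.2 ⟨i, Finset.mem_univ _, ?_⟩)
    exact hT i s (hs0 s hs) hcon
  have hOn : ∀ s, ∀ a ∈ A.filter (fun a => s - a ∈ A), On s a := by
    intro s a ha
    rw [Finset.mem_filter] at ha
    exact ⟨hA a ha.1, hA _ ha.2⟩
  have hc := count A (Good P) (lab P) B M
    (fun s hs => (arc1 P κ hPB s (hs0 s hs) (hfin s hs) _ (hOn s)).1)
    (fun s hs => by
      have := (arc1 P κ hPB s (hs0 s hs) (hfin s hs) _ (hOn s)).2
      convert this)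
    (fun v hv => by
      have := arc2 P κ hPB v hv ((A.filter (fun a => a - v ∈ A)).filter
        (fun a => Good P a ∧ Good P (a - v) ∧ lab P a = lab P (a - v)))
        (fun a ha => by
          rw [Finset.mem_filter, Finset.mem_filter] at ha
          refine ⟨hA a ha.1.1, ?_⟩
          rw [← norm_neg, neg_sub]
          exact hA _ ha.1.2)
        (fun a ha => by
          rw [Finset.mem_filter] at ha
          exact ha.2.1)
      convert this)
  have h2 := sum_kappa m
  have h3 : 1 ≤ 2 ^ m := Nat.one_le_two_pow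
  have h4 : (4 : ℕ) ^ m = 2 ^ m * 2 ^ m := by
    rw [← mul_pow]; norm_num
  have hMle : M ≤ 24 * 2 ^ m := by
    simp only [hM, hκ]
    omega
  have hM2 : 2 * M ^ 2 ≤ 1152 * 4 ^ m := by
    calc 2 * M ^ 2 ≤ 2 * (24 * 2 ^ m) ^ 2 := Nat.mul_le_mul_left _ (Nat.pow_le_pow_left hMle 2)
      _ = 1152 * 4 ^ m := by rw [h4]; ring
  refine ⟨fun τ => A.filter (fun a => Good P a ∧ lab P a = τ), fun τ => Finset.filter_subset _ _,
    fun τ => ?_, ?_, ?_⟩
  · have := hPc τ
    rwa [pow_mul, show 2 ^ 2 = 4 by norm_num] at this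
  · rw [← Finset.card_biUnion]
    · refine Finset.card_le_card fun a ha => ?_
      rw [Finset.mem_biUnion] at ha
      obtain ⟨τ, -, h⟩ := ha
      exact (Finset.mem_filter.1 h).1
    · intro τ _ τ' _ hne
      rw [Function.onFun, Finset.disjoint_left]
      intro a ha ha'
      exact hne ((Finset.mem_filter.1 ha).2.2.symm.trans (Finset.mem_filter.1 ha').2.2)
  · refine le_trans hc ?_
    refine Nat.add_le_add (Nat.mul_le_mul_right _ ?_) ?_
    · have h5 : 2 ^ m ≤ 4 ^ m := Nat.pow_le_pow_left (by norm_num) m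
      have h6 : B.card + 2 * M ≤ 54 * 2 ^ m := by
        have : 2 * (∑ i, κ i) + 1 ≤ 6 * 2 ^ m := by
          simp only [hκ]
          omega
        omega
      omega
    · refine Nat.mul_le_mul hM2 (le_of_eq ?_)
      refine Finset.sum_congr rfl fun τ _ => ?_
      congr 1

/-- The recursion iterated `L` times. -/
theorem iter_bound (m : ℕ) (L : ℕ) : ∀ (A : Finset E3) (N : ℝ),
    (∀ a ∈ A, ‖a‖ = 1) → (A.card : ℝ) ≤ N → N < (4 ^ m) ^ L →
    (en A : ℝ) ≤ 1206 * 4 ^ m * (∑ j ∈ Finset.range L, (1152 : ℝ) ^ j) * N * A.card := by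
  induction L with
  | zero =>
    intro A N _ hN hlt
    have h0 : A.card = 0 := by
      have : (A.card : ℝ) < 1 := by
        have := lt_of_le_of_lt hN hlt
        simpa using this
      exact_mod_cast Nat.lt_one_iff.1 (by exact_mod_cast this)
    rw [Finset.card_eq_zero.1 h0, en_empty]
    simp
  | succ L ih =>
    intro A N hA hN hlt
    obtain ⟨cells, hsub, hcard, hsum, hineq⟩ := rec_explicit m A hA
    have h4 : (0 : ℝ) < (4 : ℝ) ^ m := by positivity
    have hN0 : (0 : ℝ) ≤ N := le_trans (Nat.cast_nonneg _) hN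
    set S : ℝ := ∑ j ∈ Finset.range L, (1152 : ℝ) ^ j with hS
    have hS0 : 0 ≤ S := Finset.sum_nonneg fun j _ => by positivity
    have hcell : ∀ τ, (en (cells τ) : ℝ) ≤
        1206 * 4 ^ m * S * (N / 4 ^ m) * ((cells τ).card : ℝ) := by
      intro τ
      refine ih (cells τ) (N / 4 ^ m) (fun a ha => hA a (hsub τ ha)) ?_ ?_
      · rw [le_div_iff₀ h4]
        refine le_trans ?_ hN
        exact_mod_cast hcard τ
      · rw [div_lt_iff₀ h4]
        calc N < (4 ^ m) ^ (L + 1) := hlt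
          _ = (4 ^ m) ^ L * 4 ^ m := pow_succ _ _
    have hsumR : (∑ τ, ((cells τ).card : ℝ)) ≤ A.card := by exact_mod_cast hsum
    have hen : (∑ τ, (en (cells τ) : ℝ)) ≤ 1206 * 4 ^ m * S * (N / 4 ^ m) * A.card := by
      calc (∑ τ, (en (cells τ) : ℝ))
          ≤ ∑ τ, 1206 * 4 ^ m * S * (N / 4 ^ m) * ((cells τ).card : ℝ) :=
            Finset.sum_le_sum fun τ _ => hcell τ
        _ = 1206 * 4 ^ m * S * (N / 4 ^ m) * ∑ τ, ((cells τ).card : ℝ) :=
            (Finset.mul_sum _ _ _).symm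
        _ ≤ _ := mul_le_mul_of_nonneg_left hsumR (by positivity)
    have hR : (en A : ℝ) ≤ 1206 * 4 ^ m * (A.card : ℝ) ^ 2 +
        1152 * 4 ^ m * ∑ τ, (en (cells τ) : ℝ) := by
      exact_mod_cast hineq
    have hsq : (A.card : ℝ) ^ 2 ≤ N * A.card := by
      rw [pow_two]
      exact mul_le_mul_of_nonneg_right hN (Nat.cast_nonneg _)
    have hSS : (∑ j ∈ Finset.range (L + 1), (1152 : ℝ) ^ j) = 1152 * S + 1 := by
      rw [Finset.sum_range_succ', hS, Finset.mul_sum]
      simp only [pow_zero]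
      congr 1
      exact Finset.sum_congr rfl fun j _ => by ring
    rw [hSS]
    calc (en A : ℝ) ≤ 1206 * 4 ^ m * (A.card : ℝ) ^ 2 +
        1152 * 4 ^ m * ∑ τ, (en (cells τ) : ℝ) := hR
      _ ≤ 1206 * 4 ^ m * (N * A.card) +
        1152 * 4 ^ m * (1206 * 4 ^ m * S * (N / 4 ^ m) * A.card) := by
          refine add_le_add (mul_le_mul_of_nonneg_left hsq (by positivity))
            (mul_le_mul_of_nonneg_left hen (by positivity))
      _ = 1206 * 4 ^ m * (1152 * S + 1) * N * A.card := by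
          field_simp
          ring

theorem geom_le (L : ℕ) : (∑ j ∈ Finset.range L, (1152 : ℝ) ^ j) ≤ 1152 ^ L / 1151 := by
  rw [geom_sum_eq (by norm_num)]
  rw [show (1152 : ℝ) - 1 = 1151 by norm_num]
  gcongr
  linarith

/-- Explicit bound on the unit sphere. -/
theorem explicit_unit (A : Finset E3) (hA : ∀ a ∈ A, ‖a‖ = 1) :
    (en A : ℝ) ≤ 10 ^ 4 * (A.card : ℝ) ^ 2 * Real.exp (6 * Real.sqrt (Real.log A.card)) := by
  rcases Nat.eq_zero_or_pos A.card with h0 | hpos
  · rw [Finset.card_eq_zero.1 h0, en_empty]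
    simp
  have hN1 : (1 : ℝ) ≤ A.card := by exact_mod_cast hpos
  set N : ℝ := (A.card : ℝ) with hN
  have hN0 : 0 < N := by linarith
  set s : ℝ := Real.sqrt (Real.log N) with hs
  have hs0 : 0 ≤ s := Real.sqrt_nonneg _
  have hl0 : 0 ≤ Real.log N := Real.log_nonneg hN1
  have hss : s * s = Real.log N := Real.mul_self_sqrt hl0
  have hlog2 : (0.6931471803 : ℝ) < Real.log 2 := Real.log_two_gt_d9
  have hlog2' : Real.log 2 < (0.6931471808 : ℝ) := Real.log_two_lt_d9
  set b : ℝ := Real.log 2 with hb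
  have hb0 : 0 < b := by linarith
  -- choices
  set m : ℕ := ⌊2 * s⌋₊ + 1 with hm
  have hm1 : 1 ≤ m := by omega
  have hm2 : 2 * s < m := by rw [hm]; push_cast; exact Nat.lt_floor_add_one _
  have hm3 : (m : ℝ) ≤ 2 * s + 1 := by
    rw [hm]; push_cast
    have := Nat.floor_le (by positivity : 0 ≤ 2 * s)
    linarith
  set L : ℕ := ⌊s / (4 * b)⌋₊ + 1 with hL
  have hL1 : s / (4 * b) < L := by rw [hL]; push_cast; exact Nat.lt_floor_add_one _
  have hL2 : ((⌊s / (4 * b)⌋₊ : ℕ) : ℝ) ≤ s / (4 * b) := Nat.floor_le (by positivity)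
  have h4exp : (4 : ℝ) = Real.exp (2 * b) := by
    rw [hb, show 2 * Real.log 2 = Real.log (2 ^ 2) by rw [Real.log_pow]; norm_num,
      Real.exp_log (by norm_num)]
    norm_num
  have hlt : N < ((4 : ℝ) ^ m) ^ L := by
    rw [h4exp, ← Real.exp_nat_mul, ← Real.exp_nat_mul, ← Real.log_lt_iff_lt_exp hN0, ← hss]
    have h1 : s ≤ 4 * b * L := by
      have := hL1.le
      rw [div_le_iff₀ (by positivity)] at this
      linarith
    have hLpos : (0 : ℝ) < L := by
      have : 0 < L := by omega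
      exact_mod_cast this
    calc s * s ≤ s * (4 * b * L) := mul_le_mul_of_nonneg_left h1 hs0
      _ = (2 * s) * (2 * b * L) := by ring
      _ < m * (2 * b * L) := mul_lt_mul_of_pos_right hm2 (by positivity)
      _ = L * (m * (2 * b)) := by ring
  have hmain := iter_bound m L A N hA le_rfl hlt
  have hgeom := geom_le L
  have h4m : (4 : ℝ) ^ m ≤ 4 * Real.exp (4 * b * s) := by
    calc (4 : ℝ) ^ m = Real.exp (m * (2 * b)) := by rw [Real.exp_nat_mul, ← h4exp]
      _ ≤ Real.exp ((2 * s + 1) * (2 * b)) := by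
          refine Real.exp_le_exp.2 (mul_le_mul_of_nonneg_right hm3 (by positivity))
      _ = Real.exp (2 * b) * Real.exp (4 * b * s) := by
          rw [← Real.exp_add]; congr 1; ring
      _ = 4 * Real.exp (4 * b * s) := by rw [← h4exp]
  have hL' : (1152 : ℝ) ^ L ≤ 1152 * Real.exp (11 / 4 * s) := by
    rw [hL, pow_succ, mul_comm]
    refine mul_le_mul_of_nonneg_left ?_ (by norm_num)
    calc (1152 : ℝ) ^ ⌊s / (4 * b)⌋₊ ≤ (Real.exp (11 * b)) ^ ⌊s / (4 * b)⌋₊ := by
          refine pow_le_pow_left₀ (by norm_num) ?_ _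
          rw [hb, show 11 * Real.log 2 = Real.log (2 ^ 11) by rw [Real.log_pow]; norm_num,
            Real.exp_log (by norm_num)]
          norm_num
      _ = Real.exp (⌊s / (4 * b)⌋₊ * (11 * b)) := by rw [Real.exp_nat_mul]
      _ ≤ Real.exp (11 / 4 * s) := by
          refine Real.exp_le_exp.2 ?_
          calc (⌊s / (4 * b)⌋₊ : ℝ) * (11 * b) ≤ s / (4 * b) * (11 * b) :=
                mul_le_mul_of_nonneg_right hL2 (by positivity)
            _ = 11 / 4 * s := by field_simp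
  have hprod : (4 : ℝ) ^ m * 1152 ^ L ≤ 4608 * Real.exp (6 * s) := by
    calc (4 : ℝ) ^ m * 1152 ^ L
        ≤ (4 * Real.exp (4 * b * s)) * (1152 * Real.exp (11 / 4 * s)) :=
          mul_le_mul h4m hL' (by positivity) (by positivity)
      _ = 4608 * (Real.exp (4 * b * s) * Real.exp (11 / 4 * s)) := by ring
      _ = 4608 * Real.exp (4 * b * s + 11 / 4 * s) := by rw [Real.exp_add]
      _ ≤ 4608 * Real.exp (6 * s) := by
          refine mul_le_mul_of_nonneg_left (Real.exp_le_exp.2 ?_) (by norm_num)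
          nlinarith
  have hE := Real.exp_pos (6 * s)
  calc (en A : ℝ)
      ≤ 1206 * 4 ^ m * (∑ j ∈ Finset.range L, (1152 : ℝ) ^ j) * N * N := hmain
    _ ≤ 1206 * 4 ^ m * (1152 ^ L / 1151) * N * N := by gcongr
    _ = 1206 / 1151 * (4 ^ m * 1152 ^ L) * N ^ 2 := by ring
    _ ≤ 1206 / 1151 * (4608 * Real.exp (6 * s)) * N ^ 2 := by gcongr
    _ ≤ 10 ^ 4 * N ^ 2 * Real.exp (6 * s) := by
        have : 0 ≤ N ^ 2 * Real.exp (6 * s) := by positivity
        nlinarith

open Classical in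
/-- The energy does not change under an injective map preserving the additive relations. -/
theorem en_image (A : Finset E3) (φ : E3 → E3) (hinj : Function.Injective φ)
    (hadd : ∀ a b c d, φ a + φ b = φ c + φ d ↔ a + b = c + d) : en (A.image φ) = en A := by
  unfold en
  symm
  refine Finset.card_bij (fun p _ => (φ p.1, φ p.2.1, φ p.2.2.1, φ p.2.2.2)) ?_ ?_ ?_
  · rintro ⟨a, b, c, d⟩ hp
    simp only [Finset.mem_filter, Finset.mem_product] at hp ⊢
    obtain ⟨⟨ha, hb, hc, hd⟩, h⟩ := hp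
    exact ⟨⟨Finset.mem_image_of_mem _ ha, Finset.mem_image_of_mem _ hb,
      Finset.mem_image_of_mem _ hc, Finset.mem_image_of_mem _ hd⟩, (hadd _ _ _ _).2 h⟩
  · rintro ⟨a, b, c, d⟩ _ ⟨a', b', c', d'⟩ _ h
    simp only [Prod.mk.injEq] at h ⊢
    exact ⟨hinj h.1, hinj h.2.1, hinj h.2.2.1, hinj h.2.2.2⟩
  · rintro ⟨x, y, z, w⟩ hp
    simp only [Finset.mem_filter, Finset.mem_product, Finset.mem_image] at hp
    obtain ⟨⟨⟨a, ha, rfl⟩, ⟨b, hb, rfl⟩, ⟨c, hc, rfl⟩, ⟨d, hd, rfl⟩⟩, h⟩ := hp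
    refine ⟨(a, b, c, d), ?_, rfl⟩
    simp only [Finset.mem_filter, Finset.mem_product]
    exact ⟨⟨ha, hb, hc, hd⟩, (hadd _ _ _ _).1 h⟩

open Classical in
/-- Explicit bound on any sphere. -/
theorem explicit_sphere (A : Finset E3) (c : E3) (r : ℝ) (hA : ∀ a ∈ A, dist a c = r) :
    (en A : ℝ) ≤ 10 ^ 4 * (A.card : ℝ) ^ 2 * Real.exp (6 * Real.sqrt (Real.log A.card)) := by
  rcases A.eq_empty_or_nonempty with h0 | ⟨a0, ha0⟩
  · have := explicit_unit A (by rw [h0]; simp)
    convert this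
  have hr0 : 0 ≤ r := (hA a0 ha0) ▸ dist_nonneg
  obtain ⟨t, v, ht, hφ⟩ : ∃ (t : ℝ) (v : E3), t ≠ 0 ∧ ∀ a ∈ A, ‖t • (a - c) + v‖ = 1 := by
    rcases hr0.eq_or_lt with hr | hr
    · refine ⟨1, EuclideanSpace.single 0 1, one_ne_zero, fun a ha => ?_⟩
      have h1 := hA a ha
      rw [← hr, dist_eq_zero] at h1
      rw [h1, sub_self, smul_zero, zero_add]
      simp
    · refine ⟨r⁻¹, 0, inv_ne_zero hr.ne', fun a ha => ?_⟩
      have h1 := hA a ha
      rw [dist_eq_norm] at h1
      rw [add_zero, norm_smul, h1, norm_inv, Real.norm_of_nonneg hr.le, inv_mul_cancel₀ hr.ne']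
  set φ : E3 → E3 := fun a => t • (a - c) + v with hφd
  have hinj : Function.Injective φ := by
    intro a b h
    have h2 : t • (a - c) = t • (b - c) := add_right_cancel h
    have h3 := smul_right_injective E3 ht h2
    exact sub_left_injective h3
  have hadd : ∀ a b c' d, φ a + φ b = φ c' + φ d ↔ a + b = c' + d := by
    intro a b c' d
    have h1 : φ a + φ b - (φ c' + φ d) = t • ((a + b) - (c' + d)) := by
      simp only [hφd]
      module
    rw [← sub_eq_zero, h1, smul_eq_zero, or_iff_right ht, sub_eq_zero]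
  have h := explicit_unit (A.image φ) (by
    intro x hx
    obtain ⟨a, ha, rfl⟩ := Finset.mem_image.1 hx
    exact hφ a ha)
  have h1 := en_image A φ hinj hadd
  rw [Finset.card_image_of_injective A hinj] at h
  refine le_trans (le_of_eq ?_) h
  rw [← h1]

/-- Explicit bound with exponent `2 + ε`. -/
theorem explicit_eps (n : ℕ) (x ε : ℝ) (hε : 0 < ε)
    (h : x ≤ 10 ^ 4 * (n : ℝ) ^ 2 * Real.exp (6 * Real.sqrt (Real.log n))) :
    x ≤ 10 ^ 4 * Real.exp (9 / ε) * (n : ℝ) ^ (2 + ε) := by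
  rcases Nat.eq_zero_or_pos n with h0 | hpos
  · subst h0
    refine le_trans h ?_
    simp only [CharP.cast_eq_zero, ne_eq, OfNat.ofNat_ne_zero, not_false_eq_true, zero_pow, mul_zero,
      zero_mul]
    positivity
  have hN1 : (1 : ℝ) ≤ n := by exact_mod_cast hpos
  have hN0 : (0 : ℝ) < n := by linarith
  refine le_trans h ?_
  set s : ℝ := Real.sqrt (Real.log n) with hs
  have hss : s * s = Real.log n := Real.mul_self_sqrt (Real.log_nonneg hN1)
  have h1 : 6 * s ≤ 9 / ε + Real.log n * ε := by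
    rw [← hss]
    have h2 : 0 ≤ (ε * s - 3) ^ 2 / ε := by positivity
    have h3 : (ε * s - 3) ^ 2 / ε = ε * s ^ 2 - 6 * s + 9 / ε := by
      field_simp
      ring
    nlinarith
  have h2 : (n : ℝ) ^ (2 + ε) = (n : ℝ) ^ 2 * Real.exp (Real.log n * ε) := by
    rw [Real.rpow_add hN0, Real.rpow_two, Real.rpow_def_of_pos hN0 ε]
  rw [h2]
  calc 10 ^ 4 * (n : ℝ) ^ 2 * Real.exp (6 * s)
      ≤ 10 ^ 4 * (n : ℝ) ^ 2 * Real.exp (9 / ε + Real.log n * ε) := by gcongr
    _ = 10 ^ 4 * Real.exp (9 / ε) * ((n : ℝ) ^ 2 * Real.exp (Real.log n * ε)) := by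
        rw [Real.exp_add]; ring

end Pool.Agent.Helper27.SE
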