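import Pool.Agent.Helper95.LCT0

/-!
Discrete ham sandwich theorem for finite dimensional families of functions.
-/

set_option autoImplicit false

open Filter Topology

namespace Pool.Agent.Helper27.SE

/-- The clamp function. -/
noncomputable def cl (y : ℝ) : ℝ := max (-1) (min y 1)

theorem cl_cont : Continuous cl := by
  unfold cl; fun_prop

theorem cl_neg (y : ℝ) : cl (-y) = - cl y := by
  unfold cl
  rcases le_total y 1 with h1 | h1 <;> rcases le_total (-1) y with h2 | h2
  · rw [min_eq_left h1, max_eq_right h2, min_eq_left (by linarith), max_eq_right (by linarith)]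
  · rw [min_eq_left h1, max_eq_left h2, min_eq_right (by linarith), max_eq_right (by linarith)]
    norm_num
  · rw [min_eq_right h1, max_eq_right (by norm_num : (-1 : ℝ) ≤ 1),
      min_eq_left (by linarith : -y ≤ 1), max_eq_left (by linarith : -y ≤ -1)]
  · exfalso; linarith

theorem cl_ge (y : ℝ) : -1 ≤ cl y := le_max_left _ _

theorem cl_one (y : ℝ) (h : 1 ≤ y) : cl y = 1 := by
  unfold cl; rw [min_eq_right h]; norm_num

/-- Linear combination of the family. -/
noncomputable def lc {n : ℕ} {α : Type*} (g : Fin n → α → ℝ) (x : EuclideanSpace ℝ (Fin n))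
    (p : α) : ℝ := ∑ j, x j * g j p

theorem lc_cont {n : ℕ} {α : Type*} (g : Fin n → α → ℝ) (p : α) :
    Continuous (fun x => lc g x p) := by
  unfold lc; fun_prop

theorem lc_neg {n : ℕ} {α : Type*} (g : Fin n → α → ℝ) (x : EuclideanSpace ℝ (Fin n)) (p : α) :
    lc g (-x) p = - lc g x p := by
  unfold lc; rw [← Finset.sum_neg_distrib]; refine Finset.sum_congr rfl fun j _ => ?_
  simp

theorem half {n : ℕ} {α : Type*} (g : Fin n → α → ℝ) (S : Finset α)
    (y : ℕ → EuclideanSpace ℝ (Fin n)) (z : EuclideanSpace ℝ (Fin n)) (c : ℕ → ℝ)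
    (hy : Tendsto y atTop (𝓝 z)) (hc : Tendsto c atTop atTop)
    (h0 : ∀ m, ∑ p ∈ S, cl (c m * lc g (y m) p) = 0) :
    2 * (S.filter (fun p => 0 < lc g z p)).card ≤ S.card := by
  classical
  by_contra hcon
  push Not at hcon
  set T := S.filter (fun p => 0 < lc g z p) with hT
  have hev : ∀ p ∈ T, ∀ᶠ m in atTop, 1 ≤ c m * lc g (y m) p := by
    intro p hp
    have hpos : 0 < lc g z p := (Finset.mem_filter.1 hp).2
    have h1 : Tendsto (fun m => lc g (y m) p) atTop (𝓝 (lc g z p)) :=
      ((lc_cont g p).tendsto z).comp hy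
    have h2 : Tendsto (fun m => c m * lc g (y m) p) atTop atTop := hc.atTop_mul_pos hpos h1
    exact h2.eventually_ge_atTop 1
  have hall : ∀ᶠ m in atTop, ∀ p ∈ T, 1 ≤ c m * lc g (y m) p := by
    rw [Filter.eventually_all_finset]
    exact hev
  obtain ⟨m, hm⟩ := hall.exists
  have h := h0 m
  rw [← Finset.sum_filter_add_sum_filter_not S (fun p => 0 < lc g z p)] at h
  have h1 : ∑ p ∈ S with 0 < lc g z p, cl (c m * lc g (y m) p) = (T.card : ℝ) := by
    rw [Finset.sum_congr rfl (fun p hp => cl_one _ (hm p hp))]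
    simp [hT]
  have h2 : -((S.filter (fun p => ¬ 0 < lc g z p)).card : ℝ) ≤
      ∑ p ∈ S with ¬ 0 < lc g z p, cl (c m * lc g (y m) p) := by
    have := Finset.card_nsmul_le_sum (S.filter (fun p => ¬ 0 < lc g z p))
      (fun p => cl (c m * lc g (y m) p)) (-1) (fun p _ => cl_ge _)
    simpa using this
  have h3 : T.card + (S.filter (fun p => ¬ 0 < lc g z p)).card = S.card := by
    rw [hT]; exact Finset.card_filter_add_card_filter_not (s := S) (fun p => 0 < lc g z p)
  have h4 : ((S.filter (fun p => ¬ 0 < lc g z p)).card : ℝ) < (T.card : ℝ) := by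
    have : (S.filter (fun p => ¬ 0 < lc g z p)).card < T.card := by omega
    exact_mod_cast this
  linarith

open Pool.Agent.Helper26.LC in
/-- Discrete ham sandwich theorem. -/
theorem hs (n : ℕ) {α : Type*} (S : Fin n → Finset α) (g : Fin (n + 1) → α → ℝ) :
    ∃ x : EuclideanSpace ℝ (Fin (n + 1)), x ≠ 0 ∧ ∀ i,
      2 * ((S i).filter (fun p => 0 < lc g x p)).card ≤ (S i).card ∧
      2 * ((S i).filter (fun p => lc g x p < 0)).card ≤ (S i).card := by
  classical
  have key : ∀ m : ℕ, ∃ y : EuclideanSpace ℝ (Fin (n + 1)), ‖y‖ = 1 ∧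
      ∀ i, ∑ p ∈ S i, cl (((m : ℝ) + 1) * lc g y p) = 0 := by
    intro m
    obtain ⟨x, hx, hx0⟩ := bu n
      (fun i x => ∑ p ∈ S i, cl (((m : ℝ) + 1) * lc g ((‖x‖)⁻¹ • x) p)) (by
        intro i
        have hn : ContinuousOn (fun x : EuclideanSpace ℝ (Fin (n + 1)) => (‖x‖)⁻¹ • x)
            {x | x ≠ 0} := by
          refine ContinuousOn.smul (ContinuousOn.inv₀ continuous_norm.continuousOn ?_)
            continuousOn_id
          intro x hx
          exact norm_ne_zero_iff.2 hx
        refine continuousOn_finsetSum _ fun p _ => ?_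
        exact cl_cont.comp_continuousOn
          (continuousOn_const.mul ((lc_cont g p).comp_continuousOn hn)))
      (by
        intro i x _
        rw [← Finset.sum_neg_distrib]
        refine Finset.sum_congr rfl fun p _ => ?_
        rw [norm_neg, smul_neg, lc_neg, mul_neg, cl_neg])
    refine ⟨(‖x‖)⁻¹ • x, ?_, hx0⟩
    rw [norm_smul, norm_inv, norm_norm, inv_mul_cancel₀ (norm_ne_zero_iff.2 hx)]
  choose y hy1 hy0 using key
  obtain ⟨z, hz, φ, hφ, hlim⟩ := (isCompact_sphere (0 : EuclideanSpace ℝ (Fin (n + 1)))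
    1).tendsto_subseq (x := y) (fun m => by simp [hy1 m])
  have hz1 : ‖z‖ = 1 := by simpa using hz
  have hc : Tendsto (fun m => ((φ m : ℕ) : ℝ) + 1) atTop atTop :=
    (tendsto_atTop_add_const_right _ _ tendsto_natCast_atTop_atTop).comp hφ.tendsto_atTop
  refine ⟨z, ?_, fun i => ⟨?_, ?_⟩⟩
  · intro h; rw [h, norm_zero] at hz1; exact zero_ne_one hz1
  · exact half g (S i) (fun m => y (φ m)) z _ hlim hc (fun m => hy0 (φ m) i)
  · have := half g (S i) (fun m => - y (φ m)) (-z) _ hlim.neg hc (fun m => by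
      have h := hy0 (φ m) i
      rw [← neg_eq_zero, ← Finset.sum_neg_distrib] at h
      rw [← h]
      refine Finset.sum_congr rfl fun p _ => ?_
      rw [lc_neg, mul_neg, cl_neg])
    simpa [lc_neg] using this

end Pool.Agent.Helper27.SE
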