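import Pool.Agent.Helper27.SE.Defs
import Pool.Agent.Helper27.SE.Ham

/-!
Polynomial partition of a finite set of points of three space.
-/

set_option autoImplicit false

open Polynomial

namespace Pool.Agent.Helper27.SE

/-- The polynomial with given coefficients on given monomials. -/
noncomputable def pol {n : ℕ} (u v : Fin n → ℕ) (x : EuclideanSpace ℝ (Fin n)) : ℝ[X][X] :=
  ∑ j, C (C (x j) * X ^ (u j)) * X ^ (v j)

theorem ev_pol {n : ℕ} (u v : Fin n → ℕ) (x : EuclideanSpace ℝ (Fin n)) (a : E3) :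
    ev (pol u v x) a = lc (fun j (a : E3) => (a 0) ^ (u j) * (a 1) ^ (v j)) x a := by
  unfold ev pol lc
  rw [evalEval_finsetSum]
  refine Finset.sum_congr rfl fun j _ => ?_
  simp [evalEval, mul_assoc]

theorem coeff_pol {n : ℕ} (u v : Fin n → ℕ) (x : EuclideanSpace ℝ (Fin n)) (i l : ℕ) :
    ((pol u v x).coeff i).coeff l = ∑ j, if v j = i ∧ u j = l then x j else 0 := by
  unfold pol
  rw [finsetSum_coeff, finsetSum_coeff]
  refine Finset.sum_congr rfl fun j _ => ?_
  rw [coeff_C_mul, coeff_X_pow]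
  by_cases h1 : v j = i
  · by_cases h2 : u j = l
    · simp [h1, h2]
    · simp only [h1, h2, if_true, mul_one, and_false, if_false, coeff_C_mul, coeff_X_pow]
      rw [if_neg (fun h => h2 h.symm)]; simp
  · rw [if_neg (fun h => h1 h.symm)]; simp [h1]

theorem pol_BD {n : ℕ} (u v : Fin n → ℕ) (x : EuclideanSpace ℝ (Fin n)) (k : ℕ)
    (hu : ∀ j, u j ≤ k) (hv : ∀ j, v j ≤ k) : BD k (pol u v x) := by
  refine ⟨?_, fun i => ?_⟩
  · rw [natDegree_le_iff_coeff_eq_zero]
    intro i hi
    ext l
    rw [coeff_pol, coeff_zero]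
    refine Finset.sum_eq_zero fun j _ => ?_
    rw [if_neg]
    rintro ⟨h, -⟩
    have := hv j
    omega
  · rw [natDegree_le_iff_coeff_eq_zero]
    intro l hl
    rw [coeff_pol]
    refine Finset.sum_eq_zero fun j _ => ?_
    rw [if_neg]
    rintro ⟨-, h⟩
    have := hu j
    omega

theorem pol_ne {n : ℕ} (u v : Fin n → ℕ) (x : EuclideanSpace ℝ (Fin n)) (hx : x ≠ 0)
    (hinj : Function.Injective (fun j => (u j, v j))) : pol u v x ≠ 0 := by
  intro h
  apply hx
  ext j
  have h1 := coeff_pol u v x (v j) (u j)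
  rw [h, coeff_zero, coeff_zero] at h1
  rw [Finset.sum_eq_single j] at h1
  · simpa using h1.symm
  · intro i _ hi
    rw [if_neg]
    rintro ⟨h2, h3⟩
    exact hi (hinj (by simp [h2, h3]))
  · intro h; exact absurd (Finset.mem_univ j) h

theorem sq_bound (J : ℕ) : 2 ^ J + 1 ≤ (2 ^ ((J + 1) / 2) + 1) * (2 ^ ((J + 1) / 2) + 1) := by
  have h1 : 2 ^ J ≤ 2 ^ ((J + 1) / 2) * 2 ^ ((J + 1) / 2) := by
    rw [← pow_add]
    exact Nat.pow_le_pow_right (by norm_num) (by omega)
  generalize 2 ^ ((J + 1) / 2) = m at h1 ⊢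
  have h2 : (m + 1) * (m + 1) = m * m + 2 * m + 1 := by ring
  omega

open Classical in
/-- One step: a polynomial bisecting all the current cells. -/
theorem step (J : ℕ) (S : (Fin J → Bool) → Finset E3) :
    ∃ f : ℝ[X][X], f ≠ 0 ∧ BD (2 ^ ((J + 1) / 2)) f ∧ ∀ σ,
      2 * ((S σ).filter (fun a => 0 < ev f a)).card ≤ (S σ).card ∧
      2 * ((S σ).filter (fun a => ev f a < 0)).card ≤ (S σ).card := by
  have e : (Fin J → Bool) ≃ Fin (2 ^ J) := Fintype.equivFinOfCardEq (by simp)
  set k := 2 ^ ((J + 1) / 2) with hk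
  have hcard : Fintype.card (Fin (2 ^ J + 1)) ≤ Fintype.card (Fin (k + 1) × Fin (k + 1)) := by
    simp only [Fintype.card_fin, Fintype.card_prod]
    exact sq_bound J
  obtain ⟨ι⟩ : Nonempty (Fin (2 ^ J + 1) ↪ Fin (k + 1) × Fin (k + 1)) :=
    Function.Embedding.nonempty_of_card_le hcard
  let u : Fin (2 ^ J + 1) → ℕ := fun j => (ι j).1.val
  let v : Fin (2 ^ J + 1) → ℕ := fun j => (ι j).2.val
  obtain ⟨x, hx, hb⟩ := hs (2 ^ J) (fun i => S (e.symm i))
    (fun j (a : E3) => (a 0) ^ (u j) * (a 1) ^ (v j))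
  refine ⟨pol u v x, pol_ne u v x hx ?_, pol_BD u v x k ?_ ?_, fun σ => ?_⟩
  · intro i j hij
    simp only [Prod.mk.injEq] at hij
    exact ι.injective (Prod.ext (Fin.ext hij.1) (Fin.ext hij.2))
  · intro j; exact Nat.lt_succ_iff.1 (ι j).1.isLt
  · intro j; exact Nat.lt_succ_iff.1 (ι j).2.isLt
  · have := hb (e σ)
    simp only [Equiv.symm_apply_apply] at this
    simpa only [ev_pol] using this

open Classical in
/-- The polynomial partition. -/
theorem part (J : ℕ) (A : Finset E3) :
    ∃ P : Fin J → ℝ[X][X], (∀ i, P i ≠ 0) ∧ (∀ i : Fin J, BD (2 ^ ((i.val + 1) / 2)) (P i)) ∧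
      ∀ σ : Fin J → Bool, (A.filter (fun a => Good P a ∧ lab P a = σ)).card * 2 ^ J ≤ A.card := by
  induction J with
  | zero =>
    refine ⟨fun i => i.elim0, fun i => i.elim0, fun i => i.elim0, fun σ => ?_⟩
    rw [pow_zero, mul_one]
    exact Finset.card_filter_le _ _
  | succ J ih =>
    obtain ⟨P, hP0, hPB, hPc⟩ := ih
    obtain ⟨f, hf0, hfB, hfc⟩ := step J (fun σ => A.filter (fun a => Good P a ∧ lab P a = σ))
    refine ⟨Fin.snoc (α := fun _ => ℝ[X][X]) P f, ?_, ?_, ?_⟩
    · intro i
      refine Fin.lastCases ?_ (fun i => ?_) i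
      · rw [Fin.snoc_last]; exact hf0
      · rw [Fin.snoc_castSucc]; exact hP0 i
    · intro i
      refine Fin.lastCases ?_ (fun i => ?_) i
      · rw [Fin.snoc_last]; exact hfB
      · rw [Fin.snoc_castSucc]; exact hPB i
    · intro σ
      set σ' : Fin J → Bool := fun i => σ i.castSucc with hσ'
      have hc := hPc σ'
      obtain ⟨h1, h2⟩ := hfc σ'
      set S := A.filter (fun a => Good P a ∧ lab P a = σ') with hS
      have hsub : ∀ a, Good (Fin.snoc (α := fun _ => ℝ[X][X]) P f) a ∧
          lab (Fin.snoc (α := fun _ => ℝ[X][X]) P f) a = σ →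
          (Good P a ∧ lab P a = σ') ∧ ev f a ≠ 0 ∧ decide (0 < ev f a) = σ (Fin.last J) := by
        rintro a ⟨hg, hl⟩
        refine ⟨⟨fun i => ?_, ?_⟩, ?_, ?_⟩
        · have := hg i.castSucc
          rwa [Fin.snoc_castSucc] at this
        · funext i
          have := congrFun hl i.castSucc
          simp only [lab, Fin.snoc_castSucc] at this
          simp only [lab, hσ']
          exact this
        · have := hg (Fin.last J)
          rwa [Fin.snoc_last] at this
        · have := congrFun hl (Fin.last J)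
          simp only [lab, Fin.snoc_last] at this
          exact this
      have hle : 2 * (A.filter (fun a => Good (Fin.snoc (α := fun _ => ℝ[X][X]) P f) a ∧
          lab (Fin.snoc (α := fun _ => ℝ[X][X]) P f) a = σ)).card ≤ S.card := by
        cases hσ : σ (Fin.last J) with
        | true =>
          refine le_trans (Nat.mul_le_mul_left 2 (Finset.card_le_card ?_)) h1
          intro a ha
          rw [Finset.mem_filter] at ha
          obtain ⟨hg, h3, h4⟩ := hsub a ha.2
          rw [Finset.mem_filter, hS, Finset.mem_filter]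
          refine ⟨⟨ha.1, hg⟩, ?_⟩
          rw [hσ] at h4
          exact of_decide_eq_true h4
        | false =>
          refine le_trans (Nat.mul_le_mul_left 2 (Finset.card_le_card ?_)) h2
          intro a ha
          rw [Finset.mem_filter] at ha
          obtain ⟨hg, h3, h4⟩ := hsub a ha.2
          rw [Finset.mem_filter, hS, Finset.mem_filter]
          refine ⟨⟨ha.1, hg⟩, ?_⟩
          rw [hσ] at h4
          have h5 := of_decide_eq_false h4
          exact lt_of_le_of_ne (not_lt.1 h5) h3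
      calc _ = 2 * (A.filter (fun a => Good (Fin.snoc (α := fun _ => ℝ[X][X]) P f) a ∧
          lab (Fin.snoc (α := fun _ => ℝ[X][X]) P f) a = σ)).card * 2 ^ J := by ring
        _ ≤ S.card * 2 ^ J := Nat.mul_le_mul_right _ hle
        _ ≤ A.card := hc

end Pool.Agent.Helper27.SE
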