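import Pool.Agent.Helper27.SE.Defs
import Pool.Agent.Helper27.SE.Part
import Pool.Agent.Helper30.SEArc
import Pool.Agent.Helper45.SE.Count
import Pool.Agent.Helper72.SE.Bad

/-!
The additive energy of a finite subset of the unit sphere of three space: assembly.
-/

set_option autoImplicit false

open Polynomial

namespace Pool.Agent.Helper27.SE

open Pool.Agent.Helper30.SE (arc1 arc2)
open Pool.Agent.Helper45.SE (count)
open Pool.Agent.Helper72.SE (bad)

theorem sum_kappa (m : ℕ) : (∑ i : Fin (2 * m), 2 ^ ((i.val + 1) / 2)) + 3 = 3 * 2 ^ m := by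
  rw [Fin.sum_univ_eq_sum_range (fun i => 2 ^ ((i + 1) / 2)) (2 * m)]
  induction m with
  | zero => simp
  | succ m ih =>
    rw [show 2 * (m + 1) = 2 * m + 1 + 1 by ring, Finset.sum_range_succ, Finset.sum_range_succ]
    rw [show (2 * m + 1) / 2 = m by omega, show (2 * m + 1 + 1) / 2 = m + 1 by omega]
    rw [pow_succ]
    omega

open Classical in
/-- The recursive inequality. -/
theorem rec_ineq (m : ℕ) : ∃ C1 : ℕ, ∀ A : Finset E3, (∀ a ∈ A, ‖a‖ = 1) →
    ∃ cells : (Fin (2 * m) → Bool) → Finset E3, (∀ τ, cells τ ⊆ A) ∧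
      (∀ τ, (cells τ).card * 4 ^ m ≤ A.card) ∧ (∑ τ, (cells τ).card ≤ A.card) ∧
      en A ≤ C1 * A.card ^ 2 + 1352 * 4 ^ m * ∑ τ, en (cells τ) := by
  set κ : Fin (2 * m) → ℕ := fun i => 2 ^ ((i.val + 1) / 2) with hκ
  set M : ℕ := 8 * (∑ i, κ i) + 2 with hM
  refine ⟨2 * M ^ 2 + (2 * (∑ i, κ i) + 1) + 2 * M, fun A hA => ?_⟩
  obtain ⟨P, hP0, hPB, hPc⟩ := part (2 * m) A
  choose T hTc hT using fun i => bad (κ i) (P i) (hP0 i) (hPB i)
  set B : Finset E3 := insert 0 (Finset.univ.biUnion T) with hB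
  have hBc : B.card ≤ 2 * (∑ i, κ i) + 1 := by
    refine le_trans (Finset.card_insert_le _ _) (Nat.add_le_add_right ?_ 1)
    refine le_trans Finset.card_biUnion_le ?_
    rw [Finset.mul_sum]
    exact Finset.sum_le_sum fun i _ => hTc i
  have hs0 : ∀ s, s ∉ B → s ≠ 0 := by
    intro s hs h
    exact hs (by rw [hB, h]; exact Finset.mem_insert_self _ _)
  have hfin : ∀ s, s ∉ B → ∀ i, {a : E3 | On s a ∧ ev (P i) a = 0}.Finite := by
    intro s hs i
    by_contra hcon
    apply hs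
    rw [hB]
    refine Finset.mem_insert_of_mem (Finset.mem_biUnion.2 ⟨i, Finset.mem_univ _, ?_⟩)
    exact hT i s (hs0 s hs) hcon
  have hOn : ∀ s, ∀ a ∈ A.filter (fun a => s - a ∈ A), On s a := by
    intro s a ha
    rw [Finset.mem_filter] at ha
    exact ⟨hA a ha.1, hA _ ha.2⟩
  have hc := count A (Good P) (lab P) B M
    (fun s hs => (arc1 P κ hPB s (hs0 s hs) (hfin s hs) _ (hOn s)).1)
    (fun s hs => by
      have := (arc1 P κ hPB s (hs0 s hs) (hfin s hs) _ (hOn s)).2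
      convert this)
    (fun v hv => by
      have := arc2 P κ hPB v hv ((A.filter (fun a => a - v ∈ A)).filter
        (fun a => Good P a ∧ Good P (a - v) ∧ lab P a = lab P (a - v)))
        (fun a ha => by
          rw [Finset.mem_filter, Finset.mem_filter] at ha
          refine ⟨hA a ha.1.1, ?_⟩
          rw [← norm_neg, neg_sub]
          exact hA _ ha.1.2)
        (fun a ha => by
          rw [Finset.mem_filter] at ha
          exact ha.2.1)
      convert this)
  refine ⟨fun τ => A.filter (fun a => Good P a ∧ lab P a = τ), fun τ => Finset.filter_subset _ _,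
    fun τ => ?_, ?_, ?_⟩
  · have := hPc τ
    rwa [pow_mul, show 2 ^ 2 = 4 by norm_num] at this
  · rw [← Finset.card_biUnion]
    · refine Finset.card_le_card fun a ha => ?_
      rw [Finset.mem_biUnion] at ha
      obtain ⟨τ, -, h⟩ := ha
      exact (Finset.mem_filter.1 h).1
    · intro τ _ τ' _ hne
      rw [Function.onFun, Finset.disjoint_left]
      intro a ha ha'
      exact hne ((Finset.mem_filter.1 ha).2.2.symm.trans (Finset.mem_filter.1 ha').2.2)
  · refine le_trans hc ?_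
    refine Nat.add_le_add (Nat.mul_le_mul_right _ (by omega)) ?_
    refine Nat.mul_le_mul ?_ (le_of_eq ?_)
    · have h1 : M ≤ 26 * 2 ^ m := by
        have h2 := sum_kappa m
        have h3 : 1 ≤ 2 ^ m := Nat.one_le_two_pow
        simp only [hM, hκ]
        omega
      calc 2 * M ^ 2 ≤ 2 * (26 * 2 ^ m) ^ 2 :=
            Nat.mul_le_mul_left _ (Nat.pow_le_pow_left h1 2)
        _ = 1352 * (2 ^ 2) ^ m := by rw [mul_pow, ← pow_mul, ← pow_mul, mul_comm m 2]; ring
        _ = 1352 * 4 ^ m := by norm_num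
    · refine Finset.sum_congr rfl fun τ _ => ?_
      congr 1

theorem en_empty : en (∅ : Finset E3) = 0 := by
  simp [en]

/-- FINAL -/
theorem final (ε : ℝ) (hε : 0 < ε) : ∃ C : ℝ, ∀ A : Finset E3, (∀ a ∈ A, ‖a‖ = 1) →
    (en A : ℝ) ≤ C * (A.card : ℝ) ^ (2 + ε) := by
  -- choose `m` with `1352 * 4 ^ (- m ε) ≤ 1 / 2`
  obtain ⟨m, hm1, hm⟩ : ∃ m : ℕ, 1 ≤ m ∧ 1352 * ((4 : ℝ) ^ m) ^ (-ε) ≤ 1 / 2 := by
    have h1 : (1 : ℝ) < (4 : ℝ) ^ ε := Real.one_lt_rpow (by norm_num) hε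
    obtain ⟨m, hm⟩ := pow_unbounded_of_one_lt (2704 : ℝ) h1
    refine ⟨m + 1, by omega, ?_⟩
    have h2 : ((4 : ℝ) ^ (m + 1)) ^ (-ε) = (((4 : ℝ) ^ ε) ^ (m + 1))⁻¹ := by
      rw [Real.rpow_neg (by positivity), ← Real.rpow_natCast, ← Real.rpow_mul (by norm_num),
        mul_comm, Real.rpow_mul (by norm_num), Real.rpow_natCast]
    rw [h2]
    have h3 : (2704 : ℝ) < ((4 : ℝ) ^ ε) ^ (m + 1) :=
      lt_trans hm (pow_lt_pow_right₀ h1 (Nat.lt_succ_self m))
    have h4 : (((4 : ℝ) ^ ε) ^ (m + 1))⁻¹ ≤ (2704 : ℝ)⁻¹ :=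
      inv_anti₀ (by norm_num) h3.le
    linarith
  obtain ⟨C1, hC⟩ := rec_ineq m
  refine ⟨2 * C1, ?_⟩
  set K : ℝ := 2 * C1 with hK
  have hK0 : 0 ≤ K := by positivity
  suffices h : ∀ n : ℕ, ∀ A : Finset E3, A.card = n → (∀ a ∈ A, ‖a‖ = 1) →
      (en A : ℝ) ≤ K * (A.card : ℝ) ^ (2 + ε) from fun A hA => h _ A rfl hA
  intro n
  induction n using Nat.strong_induction_on with
  | _ n ih =>
    intro A hn hA
    rcases Nat.eq_zero_or_pos n with h0 | hpos
    · have : A = ∅ := Finset.card_eq_zero.1 (hn.trans h0)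
      rw [this, en_empty]
      simp only [Nat.cast_zero, Finset.card_empty]
      positivity
    obtain ⟨cells, hsub, hcard, hsum, hineq⟩ := hC A hA
    have hN : (1 : ℝ) ≤ (A.card : ℝ) := by exact_mod_cast (by omega : 1 ≤ A.card)
    set N : ℝ := (A.card : ℝ) with hNdef
    have hN0 : (0 : ℝ) < N := by linarith
    have h4 : (4 : ℝ) ≤ (4 : ℝ) ^ m := by
      calc (4 : ℝ) = 4 ^ 1 := by norm_num
        _ ≤ 4 ^ m := pow_le_pow_right₀ (by norm_num) hm1
    have hcell : ∀ τ, (en (cells τ) : ℝ) ≤ K * (N / 4 ^ m) ^ (1 + ε) * ((cells τ).card : ℝ) := by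
      intro τ
      have hc1 : ((cells τ).card : ℝ) * 4 ^ m ≤ N := by
        rw [hNdef]; exact_mod_cast hcard τ
      have hc2 : ((cells τ).card : ℝ) ≤ N / 4 ^ m := by
        rw [le_div_iff₀ (by positivity)]; exact hc1
      have hlt : (cells τ).card < n := by
        have h5 : 4 ≤ 4 ^ m := by exact_mod_cast h4
        have h6 := hcard τ
        have h7 : (cells τ).card * 4 ≤ A.card := le_trans (Nat.mul_le_mul_left _ h5) h6
        omega
      have h8 := ih _ hlt (cells τ) rfl (fun a ha => hA a (hsub τ ha))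
      refine le_trans h8 ?_
      have h9 : ((cells τ).card : ℝ) ^ (2 + ε) =
          ((cells τ).card : ℝ) ^ (1 + ε) * ((cells τ).card : ℝ) := by
        rw [show (2 : ℝ) + ε = (1 + ε) + 1 by ring]
        rw [Real.rpow_add_one' (by positivity) (by linarith)]
      rw [h9, ← mul_assoc]
      refine mul_le_mul_of_nonneg_right (mul_le_mul_of_nonneg_left ?_ hK0) (by positivity)
      exact Real.rpow_le_rpow (by positivity) hc2 (by linarith)
    have hsumR : (∑ τ, ((cells τ).card : ℝ)) ≤ N := by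
      rw [hNdef]; exact_mod_cast hsum
    have hen : (∑ τ, (en (cells τ) : ℝ)) ≤ K * (N / 4 ^ m) ^ (1 + ε) * N := by
      calc (∑ τ, (en (cells τ) : ℝ)) ≤ ∑ τ, K * (N / 4 ^ m) ^ (1 + ε) * ((cells τ).card : ℝ) :=
            Finset.sum_le_sum fun τ _ => hcell τ
        _ = K * (N / 4 ^ m) ^ (1 + ε) * ∑ τ, ((cells τ).card : ℝ) := by rw [Finset.mul_sum]
        _ ≤ _ := mul_le_mul_of_nonneg_left hsumR (by positivity)
    have hR : (en A : ℝ) ≤ C1 * N ^ 2 + 1352 * 4 ^ m * ∑ τ, (en (cells τ) : ℝ) := by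
      rw [hNdef]; exact_mod_cast hineq
    have hsq : N ^ 2 ≤ N ^ (2 + ε) := by
      rw [← Real.rpow_natCast]
      exact Real.rpow_le_rpow_of_exponent_le hN (by push_cast; linarith)
    have hmain : 1352 * 4 ^ m * (K * (N / 4 ^ m) ^ (1 + ε) * N) =
        (1352 * ((4 : ℝ) ^ m) ^ (-ε)) * K * N ^ (2 + ε) := by
      rw [Real.div_rpow hN0.le (by positivity), show (2 : ℝ) + ε = (1 + ε) + 1 by ring,
        Real.rpow_add_one hN0.ne', Real.rpow_neg (by positivity),
        show (1 : ℝ) + ε = ε + 1 by ring, Real.rpow_add_one (by positivity : ((4 : ℝ) ^ m) ≠ 0)]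
      field_simp
    calc (en A : ℝ) ≤ C1 * N ^ 2 + 1352 * 4 ^ m * ∑ τ, (en (cells τ) : ℝ) := hR
      _ ≤ C1 * N ^ (2 + ε) + 1352 * 4 ^ m * (K * (N / 4 ^ m) ^ (1 + ε) * N) := by
          refine add_le_add (mul_le_mul_of_nonneg_left hsq (by positivity)) ?_
          exact mul_le_mul_of_nonneg_left hen (by positivity)
      _ = C1 * N ^ (2 + ε) + (1352 * ((4 : ℝ) ^ m) ^ (-ε)) * (K * N ^ (2 + ε)) := by
          rw [hmain]; ring
      _ ≤ C1 * N ^ (2 + ε) + 1 / 2 * (K * N ^ (2 + ε)) := by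
          refine add_le_add le_rfl (mul_le_mul_of_nonneg_right hm (by positivity))
      _ = K * N ^ (2 + ε) := by rw [hK]; ring

end Pool.Agent.Helper27.SE
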